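import Pool.Agent.Helper34.FF.Goals1

set_option autoImplicit false

namespace Helper67.FF

open Finset
open scoped symmDiff Classical
open Pool.Agent.Helper34.FF

section
variable {V F : Type} [Fintype V] [Fintype F] (T : Tri V F)

noncomputable def cnt (S : Finset F) (e : Sym2 V) : ℕ := (S.filter fun f => T.on e f).card

lemma cnt_mono {A B : Finset F} (h : A ⊆ B) (e : Sym2 V) : cnt T A e ≤ cnt T B e := by
  unfold cnt
  exact card_le_card (filter_subset_filter _ h)

lemma cnt_union {A B : Finset F} (h : Disjoint A B) (e : Sym2 V) :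
    cnt T (A ∪ B) e = cnt T A e + cnt T B e := by
  unfold cnt
  rw [filter_union, card_union_of_disjoint (disjoint_filter_filter h)]

lemma mem_bdry {S : Finset F} {e : Sym2 V} : e ∈ T.bdry S ↔ e ∈ T.G.edgeSet ∧ cnt T S e = 1 := by
  simp [Tri.bdry, cnt]

lemma mem_inn {S : Finset F} {e : Sym2 V} : e ∈ T.inn S ↔ e ∈ T.G.edgeSet ∧ cnt T S e = 2 := by
  simp [Tri.inn, cnt]

lemma mem_btw {A B : Finset F} {e : Sym2 V} :
    e ∈ T.btw A B ↔ e ∈ T.G.edgeSet ∧ cnt T A e = 1 ∧ cnt T B e = 1 := by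
  simp [Tri.btw, cnt]

end

lemma parity_symm {α : Type} [DecidableEq α] (A B : Finset α) :
    (A ∆ B).card + 2 * (A ∩ B).card = A.card + B.card := by
  have h1 : (A ∆ B).card = (A \ B).card + (B \ A).card := by
    rw [symmDiff_def, sup_eq_union, card_union_of_disjoint disjoint_sdiff_sdiff]
  have h2 : (A \ B).card + (A ∩ B).card = A.card := card_sdiff_add_card_inter A B
  have h3 : (B \ A).card + (B ∩ A).card = B.card := card_sdiff_add_card_inter B A
  rw [inter_comm B A] at h3
  omega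

lemma filter_symm {α : Type} [DecidableEq α] (A B : Finset α) (p : α → Prop) [DecidablePred p] :
    (A ∆ B).filter p = (A.filter p) ∆ (B.filter p) := by
  ext a
  simp only [mem_filter, mem_symmDiff]
  tauto

theorem pf_StmtThree (hAlg : StmtAlg) (hPar : StmtPar) (hNC : StmtNoCut) (hEnum : StmtEnum)
    (hEF : StmtEnumFacts) : StmtThree := by
  intro V F _ _ T hT P U W hP hU hW hPU hPW hUW huniv hne1 hne2 l c hc
  obtain ⟨-, -, -, htwo, -, -, -⟩ := hAlg V F T
  -- counts
  have hcnt : ∀ e ∈ T.G.edgeSet, cnt T P e + cnt T U e + cnt T W e = 2 := by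
    intro e he
    have h := htwo e he
    have h1 : cnt T univ e = 2 := by unfold cnt; exact h
    rw [← huniv, cnt_union T (disjoint_union_left.2 ⟨hPW, hUW⟩), cnt_union T hPU] at h1
    exact h1
  have hmemPU : ∀ e, e ∈ T.btw P U ↔ e ∈ T.bdry P ∧ cnt T W e = 0 := by
    intro e
    rw [mem_btw, mem_bdry]
    constructor
    · rintro ⟨h1, h2, h3⟩
      have := hcnt e h1
      exact ⟨⟨h1, h2⟩, by omega⟩
    · rintro ⟨⟨h1, h2⟩, h3⟩
      have := hcnt e h1
      exact ⟨h1, h2, by omega⟩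
  have hmemPW : ∀ e, e ∈ T.btw P W ↔ e ∈ T.bdry P ∧ cnt T W e ≠ 0 := by
    intro e
    rw [mem_btw, mem_bdry]
    constructor
    · rintro ⟨h1, h2, h3⟩
      have := hcnt e h1
      exact ⟨⟨h1, h2⟩, by omega⟩
    · rintro ⟨⟨h1, h2⟩, h3⟩
      have := hcnt e h1
      exact ⟨h1, h2, by omega⟩
  -- colours
  set E : ℤ → Sym2 V := fun t => s(c t, c (t + 1)) with hE
  have hEper : ∀ t, E (t + l) = E t := by
    intro t
    simp only [hE]
    have h1 := hc.per t
    have h2 : c (t + l + 1) = c (t + 1) := by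
      rw [show t + (l:ℤ) + 1 = (t + 1) + l by ring]
      exact hc.per (t + 1)
    rw [h1, h2]
  have hEperN : ∀ (n : ℕ) (t : ℤ), E (t - n * l) = E t := by
    intro n
    induction n with
    | zero => intro t; simp
    | succ n ih =>
      intro t
      rw [← hEper (t - (↑(n + 1) : ℤ) * l), ← ih t]
      congr 1
      push_cast
      ring
  have hEbd : ∀ t, E t ∈ T.bdry P := fun t => (hc.bd _).2 ⟨t, rfl⟩
  have hl3 : (3 : ℤ) ≤ l := by exact_mod_cast hc.three
  obtain ⟨e0, he0⟩ := hne1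
  obtain ⟨e1, he1⟩ := hne2
  obtain ⟨t0, ht0⟩ := (hc.bd e0).1 ((hmemPU e0).1 he0).1
  obtain ⟨t1, ht1⟩ := (hc.bd e1).1 ((hmemPW e1).1 he1).1
  have hcol0 : cnt T W (E t0) = 0 := by
    have := ((hmemPU e0).1 he0).2
    rw [ht0] at this; exact this
  have hcol1 : cnt T W (E t1) ≠ 0 := by
    have := ((hmemPW e1).1 he1).2
    rw [ht1] at this; exact this
  -- move t1 below t0
  obtain ⟨t2, ht2, hcol2⟩ : ∃ t2 < t0, cnt T W (E t2) ≠ 0 := by
    refine ⟨t1 - ((t1 - t0).toNat + 1 : ℕ) * l, ?_, ?_⟩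
    · push_cast
      have h1 : (t1 - t0) ≤ ((t1 - t0).toNat : ℤ) := Int.self_le_toNat _
      have h2 : (0:ℤ) ≤ ((t1 - t0).toNat : ℤ) := Int.natCast_nonneg _
      nlinarith
    · rw [hEperN]; exact hcol1
  -- choose i
  have hex : ∃ n : ℕ, cnt T W (E (t2 + 1 + n)) = 0 := by
    refine ⟨(t0 - t2 - 1).toNat, ?_⟩
    rw [show t2 + 1 + ((t0 - t2 - 1).toNat : ℤ) = t0 by omega]
    exact hcol0
  obtain ⟨i, hi1, hi2⟩ : ∃ i, cnt T W (E (i - 1)) ≠ 0 ∧ cnt T W (E i) = 0 := by
    refine ⟨t2 + 1 + (Nat.find hex : ℤ), ?_, Nat.find_spec hex⟩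
    rcases Nat.eq_zero_or_pos (Nat.find hex) with h | h
    · rw [h]
      simpa using hcol2
    · have := Nat.find_min hex (m := Nat.find hex - 1) (by omega)
      rw [show t2 + 1 + ((Nat.find hex - 1 : ℕ) : ℤ) = t2 + 1 + (Nat.find hex : ℤ) - 1 by
        push_cast [Nat.cast_sub h]; ring] at this
      exact this
  -- choose j
  have hil : cnt T W (E (i + (l - 1 : ℕ))) ≠ 0 := by
    have : i + ((l - 1 : ℕ) : ℤ) = (i - 1) + l := by
      have := hc.three
      push_cast [Nat.cast_sub (show 1 ≤ l by omega)]; ring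
    rw [this, hEper]
    exact hi1
  have hex2 : ∃ n : ℕ, cnt T W (E (i + n)) ≠ 0 := ⟨_, hil⟩
  set m := Nat.find hex2 with hm
  have hm1 : cnt T W (E (i + m)) ≠ 0 := Nat.find_spec hex2
  have hm2 : m ≤ l - 1 := Nat.find_min' hex2 hil
  have hm3 : 0 < m := by
    rcases Nat.eq_zero_or_pos m with h | h
    · exfalso
      rw [h] at hm1
      apply hm1
      simpa using hi2
    · exact h
  have hm4 : ∀ n : ℕ, n < m → cnt T W (E (i + n)) = 0 := by
    intro n hn
    have := Nat.find_min hex2 hn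
    push Not at this
    exact this
  set j : ℤ := i + m with hj
  have hij : i < j := by omega
  have hjl : j < i + l := by
    have := hc.three
    omega
  have hcolα : ∀ t, i ≤ t → t < j → cnt T W (E t) = 0 := by
    intro t h1 h2
    have := hm4 (t - i).toNat (by omega)
    rwa [show i + ((t - i).toNat : ℤ) = t by omega] at this
  obtain ⟨-, -, -, hVbd, -, harc, hwalk, -, -, -⟩ := hEF V F T hT P l c hc
  -- the arc α
  have hα : ∀ e ∈ arcE c i j, e ∈ T.btw P U := by
    intro e he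
    simp only [arcE, mem_image, mem_Ico] at he
    obtain ⟨t, ⟨h1, h2⟩, rfl⟩ := he
    rw [hmemPU]
    exact ⟨hEbd t, hcolα t h1 h2⟩
  -- the path π on the boundary of W
  have hWmem : ∀ t, cnt T W (E t) ≠ 0 → E t ∈ T.bdry W := by
    intro t ht
    have h1 : E t ∈ T.btw P W := (hmemPW _).2 ⟨hEbd t, ht⟩
    rw [mem_btw] at h1
    rw [mem_bdry]
    exact ⟨h1.1, h1.2.2⟩
  have hx : c i ∈ T.Vbd W := by
    simp only [Tri.Vbd, mem_filter, mem_univ, true_and]
    refine ⟨E (i - 1), hWmem _ hi1, ?_⟩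
    simp [hE]
  have hy : c j ∈ T.Vbd W := by
    simp only [Tri.Vbd, mem_filter, mem_univ, true_and]
    refine ⟨E j, hWmem _ hm1, ?_⟩
    simp [hE]
  have hxy : c i ≠ c j := by
    intro h
    have h1 := hc.inj i j h
    obtain ⟨k, hk⟩ := h1
    have h2 : i - j = -(m : ℤ) := by omega
    rw [h2] at hk
    have h3 : (m : ℤ) < l := by omega
    have h4 : (0 : ℤ) < m := by omega
    have h5 : k < 0 := by
      by_contra hcon
      push Not at hcon
      nlinarith
    have h6 : (-1 : ℤ) < k := by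
      by_contra hcon
      push Not at hcon
      nlinarith
    omega
  obtain ⟨d, hd⟩ := hEnum V F T hT W hW
  set r := T.len W with hr
  obtain ⟨-, -, -, hVbdW, -, harcW, hwalkW, -, -, -⟩ := hEF V F T hT W r d hd
  obtain ⟨p, hp⟩ := (hVbdW _).1 hx
  obtain ⟨q0, hq0⟩ := (hVbdW _).1 hy
  have hr3 : (3 : ℤ) ≤ r := by exact_mod_cast hd.three
  have hdper : ∀ (n : ℤ) (t : ℤ), d (t + n * r) = d t := by
    intro n
    induction n using Int.induction_on with
    | zero => intro t; simp
    | succ n ih =>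
      intro t
      rw [← ih t, ← hd.per (t + n * r)]
      congr 1
      ring
    | pred n ih =>
      intro t
      rw [← ih t, ← hd.per (t + (-n - 1) * r)]
      congr 1
      ring
  obtain ⟨q, hq1, hq2, hq⟩ : ∃ q, p ≤ q ∧ q < p + r ∧ c j = d q := by
    refine ⟨p + (q0 - p) % r, ?_, ?_, ?_⟩
    · have := Int.emod_nonneg (q0 - p) (show (r : ℤ) ≠ 0 by omega)
      omega
    · have := Int.emod_lt_of_pos (q0 - p) (show (0 : ℤ) < r by omega)
      omega
    · rw [hq0]
      have h1 : q0 = (p + (q0 - p) % r) + ((q0 - p) / r) * r := by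
        have := Int.emod_add_mul_ediv (q0 - p) r
        linarith
      conv_lhs => rw [h1]
      exact hdper _ _
  have hπsub : arcE d p q ⊆ T.bdry W := (harcW p q hq1 hq2.le).2.1
  obtain ⟨hw1, hw2, hw3⟩ := hwalk i j hij.le hjl
  obtain ⟨hv1, hv2, hv3⟩ := hwalkW p q hq1 hq2
  -- even
  have hev : EvenSet (arcE c i j ∆ arcE d p q) := by
    intro v
    rw [filter_symm]
    have h0 := parity_symm ((arcE c i j).filter fun e => v ∈ e) ((arcE d p q).filter fun e => v ∈ e)
    have h1 := ((hPar V T.G).2 _ _ _ _ hw1 hw2).2 v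
    have h2 := ((hPar V T.G).2 _ _ _ _ hv1 hv2).2 v
    rw [hw3] at h1
    rw [hv3, ← hp, ← hq] at h2
    have h3 : Odd ((arcE c i j).filter fun e => v ∈ e).card ↔
        Odd ((arcE d p q).filter fun e => v ∈ e).card := h1.trans h2.symm
    rw [Nat.odd_iff, Nat.odd_iff] at h3
    rw [Nat.even_iff]
    omega
  have hedge : ∀ e ∈ arcE c i j ∆ arcE d p q, e ∈ T.G.edgeSet := by
    intro e he
    rw [mem_symmDiff] at he
    rcases he with ⟨h, -⟩ | ⟨h, -⟩
    · exact ((mem_btw T).1 (hα e h)).1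
    · exact ((mem_bdry T).1 (hπsub h)).1
  obtain ⟨X, hX⟩ := hT.span _ hedge hev
  -- α ⊆ bdry X
  have hαW : ∀ e ∈ arcE c i j, cnt T W e = 0 := fun e he => ((hmemPU e).1 (hα e he)).2
  have hπW : ∀ e ∈ arcE d p q, cnt T W e = 1 := fun e he => ((mem_bdry T).1 (hπsub he)).2
  have hXmem : ∀ e, e ∈ T.bdry X ↔ e ∈ arcE c i j ∨ e ∈ arcE d p q := by
    intro e
    rw [hX, mem_symmDiff]
    constructor
    · rintro (⟨h, -⟩ | ⟨h, -⟩)
      · exact Or.inl h
      · exact Or.inr h
    · rintro (h | h)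
      · refine Or.inl ⟨h, fun h' => ?_⟩
        have := hαW e h
        have := hπW e h'
        omega
      · refine Or.inr ⟨h, fun h' => ?_⟩
        have := hαW e h'
        have := hπW e h
        omega
  have hnoP : ∀ e ∈ T.bdry X, e ∉ T.inn P := by
    intro e he hin
    rw [mem_inn] at hin
    have h0 := hcnt e hin.1
    rcases (hXmem e).1 he with h | h
    · have := (mem_btw T).1 (hα e h)
      omega
    · have := hπW e h
      omega
  have hnoU : ∀ e ∈ T.bdry X, e ∉ T.inn U := by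
    intro e he hin
    rw [mem_inn] at hin
    have h0 := hcnt e hin.1
    rcases (hXmem e).1 he with h | h
    · have := (mem_btw T).1 (hα e h)
      omega
    · have := hπW e h
      omega
  -- key edge
  have hEiα : E i ∈ arcE c i j := by
    simp only [arcE, mem_image, mem_Ico]
    exact ⟨i, ⟨le_refl _, hij⟩, rfl⟩
  have hEi : cnt T X (E i) = 1 := ((mem_bdry T).1 ((hXmem _).2 (Or.inl hEiα))).2
  have hEiPU := (mem_btw T).1 (hα _ hEiα)
  have hle2 : ∀ e ∈ T.G.edgeSet, ∀ S : Finset F, cnt T S e ≤ 2 := by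
    intro e he S
    have h := htwo e he
    have h1 : cnt T univ e = 2 := by unfold cnt; exact h
    rw [← h1]
    exact cnt_mono T (subset_univ _) e
  have hbtw : ∀ e ∈ T.btw P U, cnt T X e = 1 := by
    rcases hNC V F T P X hP.1 hnoP with h1 | h1 <;> rcases hNC V F T U X hU.1 hnoU with h2 | h2
    · exfalso
      have h3 := cnt_mono T (union_subset h1 h2) (E i)
      rw [cnt_union T hPU] at h3
      omega
    · intro e he
      rw [mem_btw] at he
      have h3 := cnt_mono T h1 e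
      have h4 := hle2 e he.1 (U ∪ X)
      rw [cnt_union T h2] at h4
      omega
    · intro e he
      rw [mem_btw] at he
      have h3 := cnt_mono T h2 e
      have h4 := hle2 e he.1 (P ∪ X)
      rw [cnt_union T h1] at h4
      omega
    · exfalso
      have h4 := hle2 (E i) hEiPU.1 (P ∪ U ∪ X)
      rw [cnt_union T (disjoint_union_left.2 ⟨h1, h2⟩), cnt_union T hPU] at h4
      omega
  have hfin : T.btw P U = arcE c i j := by
    apply Subset.antisymm
    · intro e he
      have h1 := hbtw e he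
      have h2 := (mem_btw T).1 he
      have h3 : e ∈ T.bdry X := (mem_bdry T).2 ⟨h2.1, h1⟩
      rcases (hXmem e).1 h3 with h | h
      · exact h
      · exfalso
        have := hπW e h
        have := ((hmemPU e).1 he).2
        omega
    · exact hα
  obtain ⟨-, -, hsd, hdisj⟩ := harc i j hij.le hjl.le
  -- shift to nonnegative indices
  have hshift : ∀ (n : ℕ) (u v : ℤ), arcE c (u + n * l) (v + n * l) = arcE c u v := by
    intro n u v
    ext e
    simp only [arcE, mem_image, mem_Ico]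
    constructor
    · rintro ⟨t, ⟨h1, h2⟩, rfl⟩
      refine ⟨t - n * l, ⟨by linarith, by linarith⟩, ?_⟩
      exact hEperN n t
    · rintro ⟨t, ⟨h1, h2⟩, rfl⟩
      refine ⟨t + n * l, ⟨by linarith, by linarith⟩, ?_⟩
      have := hEperN n (t + n * l)
      rw [show t + (n : ℤ) * l - n * l = t by ring] at this
      exact this.symm
  obtain ⟨N, hN⟩ : ∃ N : ℕ, 0 ≤ i + N * l := by
    refine ⟨i.natAbs, ?_⟩
    have h1 : -i ≤ (i.natAbs : ℤ) := by omega
    have h2 : (0 : ℤ) ≤ (i.natAbs : ℤ) := Int.natCast_nonneg _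
    nlinarith
  obtain ⟨i', hi'⟩ : ∃ i' : ℕ, (i' : ℤ) = i + N * l := ⟨(i + N * l).toNat, Int.toNat_of_nonneg hN⟩
  obtain ⟨j', hj'⟩ : ∃ j' : ℕ, (j' : ℤ) = j + N * l :=
    ⟨(j + N * l).toNat, Int.toNat_of_nonneg (by linarith)⟩
  refine ⟨i', j', by zify; linarith, by zify; linarith, ?_, ?_⟩
  · rw [hfin, hi', hj', hshift]
  rw [hi', hj', show i + (N : ℤ) * l + l = i + l + N * l by ring, hshift]
  ext e
  have h1 : e ∈ T.btw P W ↔ e ∈ T.bdry P ∧ e ∉ arcE c i j := by
    rw [hmemPW, ← hfin, hmemPU]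
    tauto
  rw [h1, ← hsd, mem_symmDiff]
  have h2 : e ∈ arcE c i j → e ∉ arcE c j (i + l) := fun h h' =>
    (Finset.disjoint_left.1 hdisj) h h'
  tauto

end Helper67.FF
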