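import Pool.Agent.Helper1.FF2.Goals2
import Pool.Agent.Helper7.FF.StmtIso
import Pool.Agent.Helper75.FF.StmtTri
import Pool.Agent.Helper73.FF.StmtOneCorner
import Pool.Agent.Helper22.FF.StmtAlg
import Pool.Agent.Helper52.FF.StmtEnumFacts
import Pool.Agent.Helper90.FF.StmtBond
import Pool.Agent.Helper89.FF.StmtNoCut

set_option autoImplicit false

namespace Helper67.FF

open Finset
open scoped symmDiff Classical
open Pool.Agent.Helper34.FF hiding StmtG
open Pool.Agent.Helper1.FF2

lemma isW_init {V : Type} {G : SimpleGraph V} {k : ℕ} {a : ℕ → V} {x y : V} (h : IsW G k a x y)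
    {r : ℕ} (hr : r ≤ k) : IsW G r a x (a r) :=
  ⟨h.1, rfl, fun i hi => h.2.2 i (by omega)⟩

lemma isW_tail {V : Type} {G : SimpleGraph V} {k : ℕ} {a : ℕ → V} {x y : V} (h : IsW G k a x y)
    {r : ℕ} (hr : r ≤ k) : IsW G (k - r) (fun s => a (r + s)) (a r) y := by
  refine ⟨rfl, ?_, fun i hi => ?_⟩
  · show a (r + (k - r)) = y
    rw [show r + (k - r) = k by omega]; exact h.2.1
  · have := h.2.2 (r + i) (by omega)
    exact this

section
variable {V F : Type} [Fintype V] [Fintype F] (T : Tri V F)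

lemma face_of_adj {x y : V} (h : T.G.Adj x y) : ∃ f, x ∈ T.tri f ∧ y ∈ T.tri f := by
  have h2 := T.two x y h
  have : (univ.filter fun f => x ∈ T.tri f ∧ y ∈ T.tri f).Nonempty := by
    rw [← card_pos, h2]; norm_num
  obtain ⟨f, hf⟩ := this
  exact ⟨f, (mem_filter.1 hf).2⟩

/-- the walk bound of the wedge lemma -/
lemma hit_bound (hT : T.Sphere) {E Y : Finset F} {l : ℕ} {c : ℤ → V} {u : V} {i j k : ℤ}
    (hIso : T.Iso E l c) (hu : u ∈ T.Vin Eᶜ) (huY : u ∈ T.Vin Yᶜ) (hjl : j < i + l)
    (hik : i < k) (hkj : k < j) (hdis : Disjoint Y E) (C : Finset V) (hCY : T.Vbd Y ⊆ C)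
    (hCarc : ∀ t, i ≤ t → t ≤ j → c t ∈ C)
    (hbd : ∀ e, c k ∈ e → (e ∈ T.bdry Y ↔ e ∈ T.bdry E)) (huC : u ∉ C)
    (m : ℕ) (w : ℕ → V) (hw : IsW T.G m w u (c k)) (hav : ∀ s < m, w s ∉ C) :
    min ((T.G.dist u (c i) : ℤ) + (k - i)) ((T.G.dist u (c j) : ℤ) + (j - k)) ≤ m := by
  have hAlg := Pool.Agent.Helper22.FF.pf_StmtAlg
  have hBond := Pool.Agent.Helper90.FF.pf_StmtBond hAlg Pool.Agent.Helper89.FF.pf_StmtNoCut
  have hEF := Helper52FF.pf_StmtEnumFacts hAlg hBond
  obtain ⟨tri1, tri2, tri3, tri4, tri5⟩ := Pool.Agent.Helper75.FF.pf_StmtTri V F T hT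
  obtain ⟨-, -, -, hVbd, -⟩ := hEF V F T hT E l c hIso.1
  have hdist := Pool.Agent.Helper7.FF.dist_int T E l c hIso
  -- m ≥ 1
  have hckC : c k ∈ C := hCarc k hik.le hkj.le
  have hm : 1 ≤ m := by
    rcases Nat.eq_zero_or_pos m with h | h
    · exfalso
      subst h
      apply huC
      rw [← hw.1, hw.2.1]
      exact hckC
    · exact h
  -- all faces at c k are in Y ∆ E
  have hlink : ∀ f, c k ∈ T.tri f → f ∈ Y ∨ f ∈ E := by
    have hno : ∀ e ∈ T.bdry (Y ∆ E), c k ∉ e := by
      intro e he hce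
      rw [(hAlg V F T).1 Y E, mem_symmDiff] at he
      have := hbd e hce
      tauto
    rcases hT.link (c k) (Y ∆ E) hno with h | h
    · intro f hf
      have := h f hf
      rw [mem_symmDiff] at this
      tauto
    · exfalso
      have hck : c k ∈ T.Vbd E := (hVbd _).2 ⟨k, rfl⟩
      obtain ⟨⟨f, hf, hf2⟩, -⟩ := tri4 E _ hck
      apply h f hf2
      rw [mem_symmDiff]
      exact Or.inr ⟨hf, fun h' => Finset.disjoint_left.1 hdis h' hf⟩
  -- the last vertex before c k is in Vin Yᶜ
  have hw1 : w (m - 1) ∈ T.Vin Yᶜ := by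
    apply tri5 Yᶜ (m - 1) w u (w (m - 1)) (isW_init hw (by omega)) _ huY
    intro s hs hmem
    rw [tri3] at hmem
    exact hav s (by omega) (hCY hmem)
  have hadj : T.G.Adj (w (m - 1)) (c k) := by
    have := hw.2.2 (m - 1) (by omega)
    rw [show m - 1 + 1 = m by omega, hw.2.1] at this
    exact this
  obtain ⟨f, hf1, hf2⟩ := face_of_adj T hadj
  have hfE : f ∈ E := by
    rcases hlink f hf2 with h | h
    · exfalso
      simp only [Tri.Vin, mem_filter, mem_univ, true_and, mem_compl] at hw1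
      exact hw1 f hf1 h
    · exact h
  -- some vertex on the way is on the boundary of E
  obtain ⟨r, hr, hrE⟩ : ∃ r ≤ m - 1, w r ∈ T.Vbd E := by
    by_contra hcon
    push Not at hcon
    have h1 : w (m - 1) ∈ T.Vin Eᶜ := by
      apply tri5 Eᶜ (m - 1) w u (w (m - 1)) (isW_init hw (by omega)) _ hu
      intro s hs hmem
      rw [tri3] at hmem
      exact hcon s hs hmem
    simp only [Tri.Vin, mem_filter, mem_univ, true_and, mem_compl] at h1
    exact h1 f hf1 hfE
  obtain ⟨q0, hq0⟩ := (hVbd _).1 hrE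
  have hl3 : (3 : ℤ) ≤ l := by exact_mod_cast hIso.1.three
  obtain ⟨q, hq1, hq2, hq⟩ : ∃ q, i ≤ q ∧ q < i + l ∧ w r = c q := by
    refine ⟨i + (q0 - i) % l, ?_, ?_, ?_⟩
    · have := Int.emod_nonneg (q0 - i) (show (l : ℤ) ≠ 0 by omega)
      omega
    · have := Int.emod_lt_of_pos (q0 - i) (show (0 : ℤ) < l by omega)
      omega
    · rw [hq0]
      have h1 : q0 = (i + (q0 - i) % l) + ((q0 - i) / l) * l := by
        have := Int.emod_add_mul_ediv (q0 - i) l
        linarith
      conv_lhs => rw [h1]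
      exact Pool.Agent.Helper7.FF.per_mul c l hIso.1.per _ _
  have hqj : j < q := by
    by_contra hcon
    push Not at hcon
    apply hav r (by omega)
    rw [hq]
    exact hCarc q hq1 hcon
  -- distances
  have d1 : T.G.dist u (c q) ≤ r := by
    have := Pool.Agent.Helper7.FF.dist_le_of_isW T.G r w u (w r) (isW_init hw (by omega))
    rw [hq] at this
    exact this
  have d2 : T.G.dist (c q) (c k) ≤ m - r := by
    have := Pool.Agent.Helper7.FF.dist_le_of_isW T.G (m - r) _ (w r) (c k)
      (isW_tail hw (show r ≤ m by omega))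
    rw [hq] at this
    exact this
  have d3 := hdist k q (by omega) (by omega)
  rw [SimpleGraph.dist_comm] at d3
  have d4 := hdist j q (by omega) (by omega)
  have d5 := hdist q (i + l) (by omega) (by omega)
  rw [hIso.1.per i] at d5
  have d6 := hT.conn.dist_triangle (u := u) (v := c q) (w := c j)
  have d7 := hT.conn.dist_triangle (u := u) (v := c q) (w := c i)
  rw [SimpleGraph.dist_comm (u := c q) (v := c j)] at d6
  have d8 : (T.G.dist (c j) (c q) : ℤ) ≤ q - j := by rw [d4]; exact min_le_left _ _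
  have d9 : (T.G.dist (c q) (c i) : ℤ) ≤ i + l - q := by rw [d5]; exact min_le_left _ _
  have d10 : (r : ℤ) + (m - r : ℕ) = m := by omega
  zify at d1 d2 d6 d7
  rw [d3] at d2
  rw [min_le_iff]
  rcases le_total (q - k) ((l : ℤ) - (q - k)) with h | h
  · rw [min_eq_left h] at d2
    right
    linarith
  · rw [min_eq_right h] at d2
    left
    linarith

theorem pf_StmtBranch : StmtBranch := by
  intro V F _ _ T hT e l E Y c u i j a R L hIso hu huY hbad hij hjl ha hai haj hRL hRi hLj hRd hLd
    hdis hbdY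
  have hAlg := Pool.Agent.Helper22.FF.pf_StmtAlg
  have hBond := Pool.Agent.Helper90.FF.pf_StmtBond hAlg Pool.Agent.Helper89.FF.pf_StmtNoCut
  have hEF := Helper52FF.pf_StmtEnumFacts hAlg hBond
  obtain ⟨tri1, tri2, tri3, tri4, tri5⟩ := Pool.Agent.Helper75.FF.pf_StmtTri V F T hT
  obtain ⟨-, -, -, hVbd, -⟩ := hEF V F T hT E l c hIso.1
  set di := T.G.dist u (c i) with hdi
  set dj := T.G.dist u (c j) with hdj
  set C : Finset V := (Icc i j).image c ∪ ((range (di - a + 1)).image R ∪
    (range (dj - a + 1)).image L) with hC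
  have hCarc : ∀ t, i ≤ t → t ≤ j → c t ∈ C := by
    intro t h1 h2
    rw [hC, mem_union]
    exact Or.inl (mem_image.2 ⟨t, mem_Icc.2 ⟨h1, h2⟩, rfl⟩)
  have hCR : ∀ t ≤ di - a, R t ∈ C := by
    intro t h1
    rw [hC, mem_union, mem_union]
    exact Or.inr (Or.inl (mem_image.2 ⟨t, mem_range.2 (by omega), rfl⟩))
  have hCL : ∀ t ≤ dj - a, L t ∈ C := by
    intro t h1
    rw [hC, mem_union, mem_union]
    exact Or.inr (Or.inr (mem_image.2 ⟨t, mem_range.2 (by omega), rfl⟩))
  have hCcases : ∀ x ∈ C, (∃ t, i ≤ t ∧ t ≤ j ∧ x = c t) ∨ (∃ t ≤ di - a, x = R t) ∨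
      (∃ t ≤ dj - a, x = L t) := by
    intro x hx
    rw [hC, mem_union, mem_union] at hx
    rcases hx with h | h | h
    · obtain ⟨t, ht, rfl⟩ := mem_image.1 h
      rw [mem_Icc] at ht
      exact Or.inl ⟨t, ht.1, ht.2, rfl⟩
    · obtain ⟨t, ht, rfl⟩ := mem_image.1 h
      rw [mem_range] at ht
      exact Or.inr (Or.inl ⟨t, by omega, rfl⟩)
    · obtain ⟨t, ht, rfl⟩ := mem_image.1 h
      rw [mem_range] at ht
      exact Or.inr (Or.inr ⟨t, by omega, rfl⟩)
  have huC : u ∉ C := by
    intro h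
    rcases hCcases u h with ⟨t, -, -, ht⟩ | ⟨t, ht, h2⟩ | ⟨t, ht, h2⟩
    · have h1 := (tri2 Eᶜ u hu).1
      rw [tri3] at h1
      exact h1 ((hVbd u).2 ⟨t, ht⟩)
    · have h3 := hRd t ht
      rw [← h2, SimpleGraph.dist_self] at h3
      omega
    · have h3 := hLd t ht
      rw [← h2, SimpleGraph.dist_self] at h3
      omega
  -- edges of the three parts
  have hCY : T.Vbd Y ⊆ C := by
    intro v hv
    simp only [Tri.Vbd, mem_filter, mem_univ, true_and] at hv
    obtain ⟨e', he', hve⟩ := hv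
    rw [hbdY, mem_symmDiff, mem_union] at he'
    have h3 : e' ∈ arcE c i j ∨ e' ∈ wE (di - a) R ∨ e' ∈ wE (dj - a) L := by tauto
    rcases h3 with h | h | h
    · simp only [arcE, mem_image, mem_Ico] at h
      obtain ⟨t, ⟨h1, h2⟩, rfl⟩ := h
      rcases Sym2.mem_iff.1 hve with rfl | rfl
      · exact hCarc t h1 h2.le
      · exact hCarc (t + 1) (by omega) (by omega)
    · simp only [wE, mem_image, mem_range] at h
      obtain ⟨t, h1, rfl⟩ := h
      rcases Sym2.mem_iff.1 hve with rfl | rfl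
      · exact hCR t h1.le
      · exact hCR (t + 1) (by omega)
    · simp only [wE, mem_image, mem_range] at h
      obtain ⟨t, h1, rfl⟩ := h
      rcases Sym2.mem_iff.1 hve with rfl | rfl
      · exact hCL t h1.le
      · exact hCL (t + 1) (by omega)
  -- hits
  have hHitDist : ∀ t' x, Hits T.G C u t' x → T.G.dist u x ≤ t' := by
    rintro t' x ⟨k, hk, b, hb, -⟩
    exact (Pool.Agent.Helper7.FF.dist_le_of_isW T.G k b u x hb).trans hk
  have hgood : Good T.G u C := by
    refine Pool.Agent.Helper73.FF.pf_StmtOneCorner V T.G u (R 0) C a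
      (fun s => if s ≤ di - a then R s else c (i + ((s : ℤ) - (di - a : ℕ))))
      (fun s => if s ≤ dj - a then L s else c (j - ((s : ℤ) - (dj - a : ℕ)))) ha
      (by simp) (by simp [hRL]) huC ?_
    intro x hx
    by_cases hxR : ∃ t ≤ di - a, x = R t
    · obtain ⟨t, ht, rfl⟩ := hxR
      refine ⟨t, Or.inl ?_, ?_⟩
      · simp [ht]
      · intro t' h'
        have h1 := hHitDist _ _ h'
        rw [hRd t ht] at h1
        exact h1
    by_cases hxL : ∃ t ≤ dj - a, x = L t
    · obtain ⟨t, ht, rfl⟩ := hxL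
      refine ⟨t, Or.inr ?_, ?_⟩
      · simp [ht]
      · intro t' h'
        have h1 := hHitDist _ _ h'
        rw [hLd t ht] at h1
        exact h1
    obtain ⟨k, hik, hkj, rfl⟩ : ∃ t, i ≤ t ∧ t ≤ j ∧ x = c t := by
      rcases hCcases x hx with h | h | h
      · exact h
      · exact absurd h hxR
      · exact absurd h hxL
    have hik' : i < k := by
      rcases eq_or_lt_of_le hik with h | h
      · exfalso
        apply hxR
        exact ⟨di - a, le_refl _, by rw [← h]; exact hRi.symm⟩
      · exact h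
    have hkj' : k < j := by
      rcases eq_or_lt_of_le hkj with h | h
      · exfalso
        apply hxL
        exact ⟨dj - a, le_refl _, by rw [h]; exact hLj.symm⟩
      · exact h
    -- edges at c k
    have hbd : ∀ e, c k ∈ e → (e ∈ T.bdry Y ↔ e ∈ T.bdry E) := by
      intro e he
      have n1 : e ∉ wE (di - a) R := by
        intro h
        simp only [wE, mem_image, mem_range] at h
        obtain ⟨t, h1, rfl⟩ := h
        rcases Sym2.mem_iff.1 he with h2 | h2
        · exact hxR ⟨t, h1.le, h2⟩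
        · exact hxR ⟨t + 1, by omega, h2⟩
      have n2 : e ∉ wE (dj - a) L := by
        intro h
        simp only [wE, mem_image, mem_range] at h
        obtain ⟨t, h1, rfl⟩ := h
        rcases Sym2.mem_iff.1 he with h2 | h2
        · exact hxL ⟨t, h1.le, h2⟩
        · exact hxL ⟨t + 1, by omega, h2⟩
      have n3 : e ∈ T.bdry Y ↔ e ∈ arcE c i j := by
        rw [hbdY, mem_symmDiff, mem_union]
        tauto
      rw [n3]
      constructor
      · intro h
        simp only [arcE, mem_image, mem_Ico] at h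
        obtain ⟨t, ⟨h1, h2⟩, rfl⟩ := h
        exact (hIso.1.bd _).2 ⟨t, rfl⟩
      · intro h
        obtain ⟨t, rfl⟩ := (hIso.1.bd _).1 h
        simp only [arcE, mem_image, mem_Ico]
        rcases Sym2.mem_iff.1 he with h2 | h2
        · obtain ⟨n, hn⟩ := hIso.1.inj _ _ h2
          refine ⟨k, ⟨hik, hkj'⟩, ?_⟩
          have e1 : c (t + 1) = c (k + 1) := by
            have : k + 1 = (t + 1) + n * l := by linarith
            rw [this]
            exact (Pool.Agent.Helper7.FF.per_mul c l hIso.1.per _ _).symm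
          rw [e1, h2]
        · obtain ⟨n, hn⟩ := hIso.1.inj _ _ h2
          refine ⟨k - 1, ⟨by omega, by omega⟩, ?_⟩
          have e1 : c t = c (k - 1) := by
            have : k - 1 = t + n * l := by linarith
            rw [this]
            exact (Pool.Agent.Helper7.FF.per_mul c l hIso.1.per _ _).symm
          rw [e1, ← h2, show k - 1 + 1 = k by ring]
    have hmain : ∀ t', Hits T.G C u t' (c k) →
        min ((di : ℤ) + (k - i)) ((dj : ℤ) + (j - k)) ≤ t' := by
      rintro t' ⟨m, hm, w, hw, hav⟩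
      have := hit_bound T hT hIso hu huY hjl hik' hkj' hdis C hCY hCarc hbd huC m w hw hav
      have h2 : (m : ℤ) ≤ t' := by exact_mod_cast hm
      exact this.trans h2
    rcases le_total ((di : ℤ) + (k - i)) ((dj : ℤ) + (j - k)) with h | h
    · refine ⟨(di - a) + (k - i).toNat, Or.inl ?_, ?_⟩
      · rw [if_neg (by omega)]
        congr 1
        push_cast
        omega
      · intro t' ht'
        have h1 := hmain t' ht'
        rw [min_eq_left h] at h1
        omega
    · refine ⟨(dj - a) + (j - k).toNat, Or.inr ?_, ?_⟩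
      · rw [if_neg (by omega)]
        congr 1
        push_cast
        omega
      · intro t' ht'
        have h1 := hmain t' ht'
        rw [min_eq_right h] at h1
        omega
  refine hbad C hgood (Vcl T Y) ?_
  intro v hv k b hb
  by_contra hcon
  push Not at hcon
  have h1 : v ∈ T.Vin Yᶜ := by
    apply tri5 Yᶜ k b u v hb _ huY
    intro s hs hmem
    rw [tri3] at hmem
    exact hcon s hs (hCY hmem)
  simp only [Vcl, mem_filter, mem_univ, true_and] at hv
  obtain ⟨f, hf, hvf⟩ := hv
  simp only [Tri.Vin, mem_filter, mem_univ, true_and, mem_compl] at h1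
  exact h1 f hvf hf

end

end Helper67.FF
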