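import Pool.Agent.Helper34.FF.Goals3
import Pool.Agent.Helper34.FF.G1
import Pool.Agent.Helper75.FF.StmtMass
import Pool.Agent.Helper51.FF.StmtFlat

set_option autoImplicit false

namespace Helper67.FF

open Finset
open scoped symmDiff Classical
open Pool.Agent.Helper34.FF

lemma disj_compl_iff {F : Type} [Fintype F] {Y S : Finset F} : Disjoint Y Sᶜ ↔ Y ⊆ S := by
  rw [Finset.disjoint_left]
  simp only [mem_compl, not_not]
  rfl

section
variable {V F : Type} [Fintype V] [Fintype F] (T : Tri V F)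

lemma mk_core (hFlat : StmtFlat) (hMass : StmtMass) (hT : T.Sphere) {L : Finset V} {e l : ℕ}
    {T₁ A Y : Finset F}
    (hR : T.Reg L e l T₁) (hA : T.Bond A) (hm : 2 * e + 2 * l ≤ T.m L A) (hAY : A ⊆ Y)
    (hYT : Y ⊆ T₁) : l ≤ T.len Y ∧ (T.len Y = l → ∃ c, T.Iso Y l c) := by
  have hdis : Disjoint Y T₁ᶜ := by
    rw [disj_compl_iff]; exact hYT
  obtain ⟨Y', hb, hAY', hd', -, hlen, heq⟩ :=
    hFlat V F T hT A T₁ᶜ Y hA.1 hR.bond.2 hAY hdis
  have hY'T : Y' ⊆ T₁ := by
    rw [← disj_compl_iff]; exact hd'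
  have hmono := ((hMass V F T hT).2 L).1
  have hm' : 2 * e + 2 * l ≤ T.m L Y' := hm.trans (hmono A Y' hAY')
  have h1 : l ≤ T.len Y' := hR.r1 Y' hb hY'T (by omega)
  refine ⟨h1.trans hlen, fun h => ?_⟩
  have h2 : Y' = Y := heq (by omega)
  rw [h2] at hb hm'
  exact hR.r2 Y hb hYT h hm'

end

theorem pf_StmtMkBlobs' (hFlat : StmtFlat) (hMass : StmtMass) : StmtMkBlobs := by
  intro V F _ _ T hT L e l T₁ X X' hR hX hX' hXT hXT' hdis hl hl' hm hm'
  obtain ⟨-, hM⟩ := hMass V F T hT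
  obtain ⟨hmono, hcard, -⟩ := hM L
  have hlenc : ∀ S, T.len Sᶜ = T.len S := by
    intro S
    unfold Tri.len
    rw [(pAlg V F T).2.1 S]
  have hT1m : 2 * e + 2 * l ≤ T.m L T₁ := hm.trans (hmono X T₁ hXT)
  have hisoc : ∀ S, (∃ c, T.Iso S l c) → ∃ c, T.Iso Sᶜ l c := by
    rintro S ⟨c, hc⟩
    exact ⟨c, ((pIso V F T hT).1 S l c hc).2.2.1⟩
  have hne : (T₁ᶜ : Finset F).Nonempty := hR.bond.2.1
  have hwit : ∀ S, e ≤ T.m L S → ∃ w ∈ T.Vin S, Bad T.G e w := by
    intro S hS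
    have h1 : (L ∩ T.Vin S).Nonempty := by
      rw [← card_pos]
      have := hR.one
      unfold Tri.m at hS
      omega
    obtain ⟨w, hw⟩ := h1
    rw [mem_inter] at hw
    exact ⟨w, hw.2, (hR.bad w hw.1).1⟩
  -- the main alternative
  have hmain : ∀ Y, (∀ i, (![X, X', T₁ᶜ] : Fin 3 → Finset F) i ⊆ Y ∨
      Disjoint Y ((![X, X', T₁ᶜ] : Fin 3 → Finset F) i)) →
      (∃ i, (![X, X', T₁ᶜ] : Fin 3 → Finset F) i ⊆ Y) →
      (∃ i, Disjoint Y ((![X, X', T₁ᶜ] : Fin 3 → Finset F) i)) →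
      l ≤ T.len Y ∧ (T.len Y = l → ∃ c, T.Iso Y l c) := by
    intro Y hall hin hout
    rcases hall 2 with h2 | h2
    · -- T₁ᶜ ⊆ Y
      have h2 : T₁ᶜ ⊆ Y := h2
      have hYc : Yᶜ ⊆ T₁ := by
        intro f hf
        by_contra hcon
        exact (mem_compl.1 hf) (h2 (mem_compl.2 hcon))
      have key : ∀ A, T.Bond A → 2 * e + 2 * l ≤ T.m L A → Disjoint Y A →
          l ≤ T.len Y ∧ (T.len Y = l → ∃ c, T.Iso Y l c) := by
        intro A hA hmA hYA
        have hAY : A ⊆ Yᶜ := by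
          intro f hf
          exact mem_compl.2 fun h => (Finset.disjoint_left.1 hYA) h hf
        obtain ⟨h3, h4⟩ := mk_core T hFlat hMass hT hR hA hmA hAY hYc
        rw [hlenc] at h3 h4
        refine ⟨h3, fun h => ?_⟩
        have := hisoc _ (h4 h)
        rwa [compl_compl] at this
      obtain ⟨j, hj⟩ := hout
      fin_cases j
      · exact key X hX hm hj
      · exact key X' hX' hm' hj
      · exfalso
        obtain ⟨f, hf⟩ := hne
        exact (Finset.disjoint_left.1 hj) (h2 hf) hf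
    · have h2 : Disjoint Y T₁ᶜ := h2
      have hYT : Y ⊆ T₁ := by
        rw [← disj_compl_iff]; exact h2
      obtain ⟨j, hj⟩ := hin
      fin_cases j
      · exact mk_core T hFlat hMass hT hR hX hm hj hYT
      · exact mk_core T hFlat hMass hT hR hX' hm' hj hYT
      · exfalso
        obtain ⟨f, hf⟩ := hne
        exact (Finset.disjoint_left.1 h2) (hj hf) hf
  have hXd : Disjoint X T₁ᶜ := by rw [disj_compl_iff]; exact hXT
  have hXd' : Disjoint X' T₁ᶜ := by rw [disj_compl_iff]; exact hXT'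
  refine ⟨hR.one, ?_, ?_, ?_, ?_, fun Y h1 h2 h3 => (hmain Y h1 h2 h3).1,
    fun Y h1 h2 h3 h4 => (hmain Y h1 h2 h3).2 h4⟩
  · intro i j hij
    fin_cases i <;> fin_cases j
    · exact absurd rfl hij
    · exact hdis
    · exact hXd
    · exact hdis.symm
    · exact absurd rfl hij
    · exact hXd'
    · exact hXd.symm
    · exact hXd'.symm
    · exact absurd rfl hij
  · intro i
    fin_cases i
    · exact hR.r2 X hX hXT hl hm
    · exact hR.r2 X' hX' hXT' hl' hm'
    · exact hisoc T₁ (hR.r2 T₁ hR.bond (Subset.refl _) hR.len hT1m)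
  · intro i
    fin_cases i
    · have := hcard X
      show e ≤ (T.Vin X).card
      omega
    · have := hcard X'
      show e ≤ (T.Vin X').card
      omega
    · have := hcard T₁ᶜ
      have h2 := hR.out
      show e ≤ (T.Vin T₁ᶜ).card
      omega
  · intro i
    fin_cases i
    · exact hwit X (by omega)
    · exact hwit X' (by omega)
    · exact hwit T₁ᶜ hR.out

theorem pf_StmtMkBlobs : StmtMkBlobs :=
  pf_StmtMkBlobs' Pool.Agent.Helper51.FF.pf_StmtFlat Pool.Agent.Helper75.FF.pf_StmtMass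

end Helper67.FF
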